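import Pool.Agent.N410.CutData

/-!
# The value `‖d_{G,w}‖₊` of weighted cut functions is not monotone in the weights

The definitions (`Submodular`, `IsDecomposition`, `decompositionValues`, `plusNorm`, `cutFunction`) are
in `Pool/Agent/N410/CutDefs.lean`.
-/

set_option autoImplicit false

namespace Pool.Agent.Results.MP_37da45_co.NotMonotone

open Pool.Agent.N410.Cut

/-- There are a finite graph `G` (with 8 vertices) and weights `0 ≤ w' ≤ w` on its edges such that the
minimum values `‖d_{G,w'}‖₊ = 173/4` and `‖d_{G,w}‖₊ = 43` are attained and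
`‖d_{G,w'}‖₊ > ‖d_{G,w}‖₊`. -/
theorem result : ∃ (V : Type) (_ : Fintype V) (_ : DecidableEq V) (G : SimpleGraph V)
    (w w' : Sym2 V → ℝ),
    Fintype.card V = 8 ∧ (∀ e ∈ G.edgeSet, 0 ≤ w' e ∧ w' e ≤ w e) ∧
    IsLeast (decompositionValues (cutFunction G w')) (plusNorm (cutFunction G w')) ∧
    IsLeast (decompositionValues (cutFunction G w)) (plusNorm (cutFunction G w)) ∧
    plusNorm (cutFunction G w') = 173 / 4 ∧ plusNorm (cutFunction G w) = 43 ∧
    plusNorm (cutFunction G w) < plusNorm (cutFunction G w') := by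
  have h1 : plusNorm (cutFunction Pool.Agent.N410.Cut.G fun e => (W1 e : ℝ)) = 173 / 4 :=
    least1.csInf_eq
  have h2 : plusNorm (cutFunction Pool.Agent.N410.Cut.G fun e => (W2 e : ℝ)) = 43 :=
    least2.csInf_eq
  refine ⟨Fin 8, inferInstance, inferInstance, Pool.Agent.N410.Cut.G, fun e => (W2 e : ℝ),
    fun e => (W1 e : ℝ), by simp, ?_, ?_, ?_, h1, h2, ?_⟩
  · intro e _
    refine ⟨Nat.cast_nonneg _, ?_⟩
    have : W1 e ≤ W2 e := by
      unfold W1 W2
      split_ifs <;> simp_all
    exact Nat.cast_le.2 this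
  · rw [h1]; exact least1
  · rw [h2]; exact least2
  · rw [h1, h2]; norm_num

end Pool.Agent.Results.MP_37da45_co.NotMonotone
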